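import Pool.Agent.Y706.BI.Stm

/-!
# Project BI: transfer of `ConjConst` (CJC)
-/

namespace Pool.Agent.Y759.BI

open Pool.Agent.W277.UB Pool.Agent.W277.UG Pool.Agent.W277.UH Pool.Agent.Y706.BI Finset Polynomial

universe u v w

/-- transfer of `ConjConst` along a conjugation over a larger field -/
theorem t_CJC : S_CJC.{u, v, w} := by
  intro k E L _ _ _ _ _ _ _ _ d a b c e p q x y hp hq hx hy hcj hcc
  obtain ⟨hdet0, s, hs, h1, h2⟩ := hcj
  obtain ⟨a', b', c', e', hdet1, u, w, hne, hu, hw, hid⟩ := hcc
  set φ := algebraMap E L with hφ
  refine ⟨φ a' * a + φ b' * c, φ a' * b + φ b' * e, φ c' * a + φ e' * c, φ c' * b + φ e' * e,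
    ?_, u, w, hne, hu, hw, ?_⟩
  · have e1 : (φ a' * a + φ b' * c) * (φ c' * b + φ e' * e) -
        (φ a' * b + φ b' * e) * (φ c' * a + φ e' * c) =
        φ (a' * e' - b' * c') * (a * e - b * c) := by
      rw [map_sub, map_mul, map_mul]
      ring
    rw [e1]
    exact mul_ne_zero ((map_ne_zero φ).mpr hdet1) hdet0
  · apply Polynomial.eq_of_infinite_eval_eq
    apply Set.Infinite.mono (s := {z | c * z + e ≠ 0})
    · intro z hz
      have hz' : c * z + e ≠ 0 := hz
      obtain ⟨t, ht⟩ : ∃ t, t = (a * z + b) / (c * z + e) := ⟨_, rfl⟩
      have htz : t * (c * z + e) = a * z + b := by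
        rw [ht, div_mul_cancel₀ _ hz']
      -- the relations of the first conjugation
      have e1 := congrArg (eval z) h1
      have e2 := congrArg (eval z) h2
      rw [hc_eval] at e1 e2
      have g1 : eval z (C a * X + C b) = a * z + b := by simp
      have g2 : eval z (C c * X + C e) = c * z + e := by simp
      rw [g1, g2] at e1 e2
      rw [hev_eval _ _ (natDegree_map_le.trans hx) _ hz'] at e1
      rw [hev_eval _ _ (natDegree_map_le.trans hy) _ hz'] at e2
      simp only [← ht, eval_mul, eval_add, eval_C] at e1 e2
      -- the relation of the second conjugation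
      have e3 := congrArg (aeval t) hid
      rw [map_mul, map_mul, hc_aeval, hc_aeval] at e3
      have g3 : aeval t (C a' * X + C b') = φ a' * t + φ b' := by simp [hφ]
      have g4 : aeval t (C c' * X + C e') = φ c' * t + φ e' := by simp [hφ]
      have g5 : aeval t (C a' * x + C b' * y) =
          φ a' * eval t (x.map φ) + φ b' * eval t (y.map φ) := by
        rw [eval_map_algebraMap, eval_map_algebraMap]
        simp [hφ]
      have g6 : aeval t (C c' * x + C e' * y) =
          φ c' * eval t (x.map φ) + φ e' * eval t (y.map φ) := by
        rw [eval_map_algebraMap, eval_map_algebraMap]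
        simp [hφ]
      have g7 : ∀ g : Polynomial k, (g.map (algebraMap k E)).map (algebraMap E L) =
          g.map (algebraMap k L) := by
        intro g
        rw [Polynomial.map_map, ← IsScalarTower.algebraMap_eq]
      rw [g3, g4, g5, g6, g7, g7] at e3
      have g8 : ∀ g : Polynomial L, hev d g
          ((φ a' * a + φ b' * c) * z + (φ a' * b + φ b' * e),
            (φ c' * a + φ e' * c) * z + (φ c' * b + φ e' * e)) =
          (c * z + e) ^ d * hev d g (φ a' * t + φ b', φ c' * t + φ e') := by
        intro g
        rw [← hev_smul]
        congr 1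
        ext
        · simp only [Prod.smul_fst, smul_eq_mul]
          linear_combination (-(φ a')) * htz
        · simp only [Prod.smul_snd, smul_eq_mul]
          linear_combination (-(φ c')) * htz
      rw [Set.mem_setOf_eq, eval_mul, eval_mul, hc_eval, hc_eval]
      simp only [eval_add, eval_mul, eval_C, eval_X]
      rw [g8, g8]
      set W := hev d (w.map (algebraMap k L)) (φ a' * t + φ b', φ c' * t + φ e')
      set U := hev d (u.map (algebraMap k L)) (φ a' * t + φ b', φ c' * t + φ e')
      set xt := eval t (x.map φ)
      set yt := eval t (y.map φ)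
      set D := (c * z + e) ^ d
      have key : s * (((φ a' * a + φ b' * c) * eval z p + (φ a' * b + φ b' * e) * eval z q) *
          (D * W)) = s * (((φ c' * a + φ e' * c) * eval z p + (φ c' * b + φ e' * e) * eval z q) *
          (D * U)) := by
        linear_combination (D * D) * e3 - (φ a' * D * W - φ c' * D * U) * e1 -
          (φ b' * D * W - φ e' * D * U) * e2
      exact mul_left_cancel₀ hs key
    · have hfin : {z : L | c * z + e = 0}.Finite := by
        by_cases hc0 : c = 0
        · have he0 : e ≠ 0 := by
            rintro rfl
            apply hdet0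
            rw [hc0]
            ring
          convert Set.finite_empty
          rw [Set.eq_empty_iff_forall_notMem]
          intro z hz
          have hz' : c * z + e = 0 := hz
          rw [hc0, zero_mul, zero_add] at hz'
          exact he0 hz'
        · apply Set.Finite.subset (Set.finite_singleton (-e / c))
          intro z hz
          have hz' : c * z + e = 0 := hz
          rw [Set.mem_singleton_iff, eq_div_iff hc0]
          linear_combination hz'
      have := hfin.infinite_compl
      exact this

end Pool.Agent.Y759.BI
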